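import Pool.Agent.H99.CE.Targets

/-!
# SHT: the starts (MP_65efe8_pr)
-/

set_option autoImplicit false

open MeasureTheory ProbabilityTheory Filter Topology
open scoped ENNReal
open Pool.Agent.H95 Pool.Agent.H95.Cop Pool.Agent.H96.Cop Pool.Agent.H99.CE

namespace Pool.Agent.H61.CE

theorem tele {s : ℝ} (hs : 0 < s) {y : ℝ} (hy : 0 < y) :
    (y + 1) ^ (-(1 + s)) ≤ 1 / s * (y ^ (-s) - (y + 1) ^ (-s)) := by
  have hy1 : 0 < y + 1 := by linarith
  have h1 : y ^ (-s) = (y + 1) ^ (-s) * (y / (y + 1)) ^ (-s) := by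
    rw [← Real.mul_rpow hy1.le (by positivity)]
    congr 1
    field_simp
  have h2 : 1 + s / (y + 1) ≤ (y / (y + 1)) ^ (-s) := by
    rw [Real.rpow_def_of_pos (by positivity)]
    have h3 := Real.log_le_sub_one_of_pos (show 0 < y / (y + 1) by positivity)
    have h4 : y / (y + 1) - 1 = -(1 / (y + 1)) := by field_simp; ring
    rw [h4] at h3
    have h5 : s / (y + 1) ≤ Real.log (y / (y + 1)) * -s := by
      have h6 : s / (y + 1) = 1 / (y + 1) * s := by ring
      rw [h6]
      nlinarith
    have h7 := Real.add_one_le_exp (Real.log (y / (y + 1)) * -s)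
    linarith
  have h3 : (y + 1) ^ (-(1 + s)) = (y + 1) ^ (-s) * (1 / (y + 1)) := by
    rw [show -(1 + s) = -s - 1 by ring, Real.rpow_sub_one hy1.ne']
    ring
  have h4 : 0 < (y + 1) ^ (-s) := Real.rpow_pos_of_pos hy1 _
  rw [h1, h3]
  have h5 : (y + 1) ^ (-s) * (1 + s / (y + 1)) ≤ (y + 1) ^ (-s) * (y / (y + 1)) ^ (-s) :=
    mul_le_mul_of_nonneg_left h2 h4.le
  have h6 : (y + 1) ^ (-s) * (1 / (y + 1)) =
      1 / s * ((y + 1) ^ (-s) * (1 + s / (y + 1)) - (y + 1) ^ (-s)) := by
    field_simp
    ring
  rw [h6]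
  exact mul_le_mul_of_nonneg_left (by linarith) (by positivity)

theorem sumw {s : ℝ} (hs : 0 < s) (n : ℕ) :
    ∑ i ∈ Finset.range n, ((i : ℝ) + 1) ^ (-(1 + s)) ≤ 1 + 1 / s := by
  have h : ∀ n : ℕ, ∑ i ∈ Finset.range (n + 1), ((i : ℝ) + 1) ^ (-(1 + s)) ≤
      1 + 1 / s * (1 - ((n : ℝ) + 1) ^ (-s)) := by
    intro n
    induction n with
    | zero => simp
    | succ n ih =>
      rw [Finset.sum_range_succ]
      have h1 := tele hs (show (0 : ℝ) < (n : ℝ) + 1 by positivity)
      push_cast
      have h2 : 1 + 1 / s * (1 - ((n : ℝ) + 1 + 1) ^ (-s)) =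
          1 + 1 / s * (1 - ((n : ℝ) + 1) ^ (-s)) +
            1 / s * (((n : ℝ) + 1) ^ (-s) - ((n : ℝ) + 1 + 1) ^ (-s)) := by ring
      rw [h2]
      exact add_le_add ih h1
  rcases n with _ | n
  · simp
    positivity
  · refine (h n).trans ?_
    have h1 : 0 ≤ ((n : ℝ) + 1) ^ (-s) := by positivity
    have h2 : 1 / s * (1 - ((n : ℝ) + 1) ^ (-s)) ≤ 1 / s * 1 :=
      mul_le_mul_of_nonneg_left (by linarith) (by positivity)
    linarith

theorem wq_nonneg (α : ℝ) (D : ℕ) : 0 ≤ wq α D := by
  unfold wq
  positivity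

theorem sum_wq {α : ℝ} (hα : 0 < α) (M p : ℕ) :
    ∑ i ∈ Finset.range (min M p), wq α (p - i) ≤ 2 + 1 / α := by
  have h1 : ∑ i ∈ Finset.range (min M p), wq α (p - i) ≤ ∑ i ∈ Finset.range p, wq α (p - i) :=
    Finset.sum_le_sum_of_subset_of_nonneg
      (Finset.range_subset_range.2 (min_le_right _ _)) fun i _ _ => wq_nonneg _ _
  refine h1.trans ?_
  have h2 : ∑ i ∈ Finset.range p, wq α (p - i) = ∑ j ∈ Finset.range p, wq α (j + 1) := by
    rw [← Finset.sum_range_reflect]
    refine Finset.sum_congr rfl fun i hi => ?_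
    have := Finset.mem_range.1 hi
    congr 1
    omega
  rw [h2]
  rcases p with _ | q
  · simp
    positivity
  · rw [Finset.sum_range_succ']
    have h3 : wq α (0 + 1) = 1 := by
      unfold wq
      simp
    have h4 : ∀ j ∈ Finset.range q, wq α (j + 1 + 1) = ((j : ℝ) + 1) ^ (-(1 + α)) := by
      intro j _
      unfold wq
      have h5 : max (j + 1 + 1 - 1) 1 = j + 1 := by omega
      rw [h5]
      push_cast
      rfl
    rw [h3, Finset.sum_congr rfl h4]
    have := sumw hα q
    linarith

theorem pf_SHT : T_SHT := by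
  intro α t θ s η P M L hα hα2 ht hθ hθ1 hs hs0 hη0 hη1 hP hP2 hM
  have hM' : (1 : ℝ) ≤ M := by exact_mod_cast hM
  let c : ℕ → ℝ := fun D => if D ≤ M then 1 else η
  have hc0 : ∀ D, 0 ≤ c D := by
    intro D
    simp only [c]
    split_ifs
    · exact zero_le_one
    · exact hη0
  have hc1 : ∀ D, c D ≤ 1 := by
    intro D
    simp only [c]
    split_ifs
    · exact le_rfl
    · exact hη1
  let S : ℕ → ℝ := fun p => α ^ 2 * P * ∑ i ∈ Finset.range (min M p), wq α (p - i) * c (p - i)
  have hS0 : ∀ p, 0 ≤ S p := fun p => mul_nonneg (by positivity)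
    (Finset.sum_nonneg fun i _ => mul_nonneg (wq_nonneg _ _) (hc0 _))
  let A : ℕ → ℝ := fun p => (if p < M then (1 : ℝ) else 0) + S p
  have hab : ∀ p, ab (ENNReal.ofReal (α ^ 2 * P * t)) (Kd α t η M) M p = ENNReal.ofReal (A p) := by
    intro p
    unfold ab
    have e1 : ∑ i ∈ Finset.range (min M p), Kd α t η M (p - i) =
        ENNReal.ofReal (∑ i ∈ Finset.range (min M p), wq α (p - i) / t * c (p - i)) := by
      rw [ENNReal.ofReal_sum_of_nonneg]
      · rfl
      · intro i _
        exact mul_nonneg (div_nonneg (wq_nonneg _ _) ht.le) (hc0 _)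
    have e2 : (if p < M then (1 : ℝ≥0∞) else 0) = ENNReal.ofReal (if p < M then (1 : ℝ) else 0) := by
      split_ifs <;> simp
    rw [e1, e2, ← ENNReal.ofReal_mul (by positivity), ← ENNReal.ofReal_add]
    · congr 1
      simp only [A, S]
      congr 1
      rw [mul_assoc, Finset.mul_sum]
      congr 1
      refine Finset.sum_congr rfl fun i _ => ?_
      field_simp
    · split_ifs <;> norm_num
    · exact mul_nonneg (by positivity) (Finset.sum_nonneg fun i _ =>
        mul_nonneg (div_nonneg (wq_nonneg _ _) ht.le) (hc0 _))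
  have hA0 : ∀ p, 0 ≤ A p := by
    intro p
    refine add_nonneg ?_ (hS0 p)
    split_ifs <;> norm_num
  have hmx : ∀ p, mx θ (ab (ENNReal.ofReal (α ^ 2 * P * t)) (Kd α t η M) M p) =
      ENNReal.ofReal (max (A p) (A p ^ θ)) := by
    intro p
    unfold mx
    rw [hab, ENNReal.ofReal_rpow_of_nonneg (hA0 p) hθ.le]
    exact (ENNReal.ofReal_max _ _).symm
  have hS1 : ∀ p, S p ≤ 2 * α * P := by
    intro p
    have e1 : ∑ i ∈ Finset.range (min M p), wq α (p - i) * c (p - i) ≤ 2 + 1 / α := by
      refine (Finset.sum_le_sum fun i _ => ?_).trans (sum_wq hα M p)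
      exact mul_le_of_le_one_right (wq_nonneg _ _) (hc1 _)
    have e2 : S p ≤ α ^ 2 * P * (2 + 1 / α) := mul_le_mul_of_nonneg_left e1 (by positivity)
    refine e2.trans ?_
    have e3 : α ^ 2 * P * (2 + 1 / α) = α * P * (2 * α + 1) := by field_simp
    rw [e3]
    have e4 : 0 ≤ α * P := by positivity
    nlinarith
  let E : ℝ := (α ^ 2 * P * η) ^ θ * M
  have hE0 : 0 ≤ E := by positivity
  let B : ℕ → ℝ := fun p => (if p < M then 1 + 2 * α * P else 0) +
    (if M ≤ p ∧ p < 2 * M then (2 * α * P) ^ θ else 0) +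
    (if 2 * M ≤ p then E * ((p : ℝ) - M) ^ (-(1 + s)) else 0)
  have hk0 : 0 ≤ 2 * α * P := by positivity
  have hbd : ∀ p, max (A p) (A p ^ θ) ≤ B p := by
    intro p
    rcases lt_or_ge p M with h1 | h1
    · have e1 : B p = 1 + 2 * α * P := by
        simp only [B]
        rw [if_pos h1, if_neg (by omega), if_neg (by omega), add_zero, add_zero]
      have e2 : A p = 1 + S p := by
        simp only [A]
        rw [if_pos h1]
      have e3 := hS1 p
      have e4 := hS0 p
      rw [e1]
      refine max_le (by linarith) ?_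
      refine (Real.rpow_le_self_of_one_le (by linarith) hθ1.le).trans (by linarith)
    have e2 : A p = S p := by
      simp only [A]
      rw [if_neg (by omega), zero_add]
    rw [e2]
    have hle1 : S p ≤ 1 := (hS1 p).trans hP2
    have hself : S p ≤ S p ^ θ := Real.self_le_rpow_of_le_one (hS0 p) hle1 hθ1.le
    rw [max_eq_right hself]
    rcases lt_or_ge p (2 * M) with h2 | h2
    · have e1 : B p = (2 * α * P) ^ θ := by
        simp only [B]
        rw [if_neg (by omega), if_pos ⟨h1, h2⟩, if_neg (by omega), add_zero, zero_add]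
      rw [e1]
      exact Real.rpow_le_rpow (hS0 p) (hS1 p) hθ.le
    · have e1 : B p = E * ((p : ℝ) - M) ^ (-(1 + s)) := by
        simp only [B]
        rw [if_neg (by omega), if_neg (by omega), if_pos h2, add_zero, zero_add]
      have hp : (2 * M : ℝ) ≤ p := by exact_mod_cast h2
      have hpM : 0 < (p : ℝ) - M := by linarith
      have e3 : S p ≤ α ^ 2 * P * η * (M * ((p : ℝ) - M) ^ (-(1 + α))) := by
        have e4 : ∀ i ∈ Finset.range (min M p), wq α (p - i) * c (p - i) ≤
            η * ((p : ℝ) - M) ^ (-(1 + α)) := by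
          intro i hi
          have hi' : i < M := (Finset.mem_range.1 hi).trans_le (min_le_left _ _)
          have e5 : c (p - i) = η := by
            simp only [c]
            rw [if_neg (by omega)]
          rw [e5, mul_comm]
          refine mul_le_mul_of_nonneg_left ?_ hη0
          unfold wq
          have e6 : max (p - i - 1) 1 = p - i - 1 := by omega
          rw [e6]
          refine Real.rpow_le_rpow_of_nonpos hpM ?_ (by linarith)
          have e7 : p - M ≤ p - i - 1 := by omega
          have e8 : ((p - M : ℕ) : ℝ) = (p : ℝ) - M := by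
            rw [Nat.cast_sub (by omega)]
          rw [← e8]
          exact_mod_cast e7
        have e5 : ∑ i ∈ Finset.range (min M p), wq α (p - i) * c (p - i) ≤
            M * (η * ((p : ℝ) - M) ^ (-(1 + α))) := by
          refine (Finset.sum_le_sum e4).trans ?_
          rw [Finset.sum_const, Finset.card_range, nsmul_eq_mul]
          refine mul_le_mul_of_nonneg_right ?_ (by positivity)
          exact_mod_cast min_le_left _ _
        refine (mul_le_mul_of_nonneg_left e5 (by positivity)).trans (le_of_eq ?_)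
        ring
      rw [e1]
      refine (Real.rpow_le_rpow (hS0 p) e3 hθ.le).trans ?_
      rw [Real.mul_rpow (x := α ^ 2 * P * η) (by positivity) (by positivity),
        Real.mul_rpow (x := (M : ℝ)) (by positivity) (by positivity), ← Real.rpow_mul hpM.le,
        show -(1 + α) * θ = -(1 + s) by linarith, ← mul_assoc]
      refine mul_le_mul_of_nonneg_right ?_ (by positivity)
      refine mul_le_mul_of_nonneg_left ?_ (by positivity)
      exact Real.rpow_le_self_of_one_le hM' hθ1.le
  have hsum : ∑ p ∈ Finset.range L, B p ≤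
      M * (1 + 2 * α * P + (2 * α * P) ^ θ + (α ^ 2 * P * η) ^ θ * (1 + 1 / s)) := by
    simp only [B]
    rw [Finset.sum_add_distrib, Finset.sum_add_distrib]
    have f1 : ∑ p ∈ Finset.range L, (if p < M then 1 + 2 * α * P else 0) ≤
        M * (1 + 2 * α * P) := by
      rw [← Finset.sum_filter, Finset.sum_const, nsmul_eq_mul]
      refine mul_le_mul_of_nonneg_right ?_ (by linarith)
      have h1 : (Finset.range L).filter (fun p => p < M) ⊆ Finset.range M := fun p hp =>
        Finset.mem_range.2 (Finset.mem_filter.1 hp).2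
      have h2 := Finset.card_le_card h1
      rw [Finset.card_range] at h2
      exact_mod_cast h2
    have f2 : ∑ p ∈ Finset.range L, (if M ≤ p ∧ p < 2 * M then (2 * α * P) ^ θ else 0) ≤
        M * (2 * α * P) ^ θ := by
      rw [← Finset.sum_filter, Finset.sum_const, nsmul_eq_mul]
      refine mul_le_mul_of_nonneg_right ?_ (by positivity)
      have h1 : (Finset.range L).filter (fun p => M ≤ p ∧ p < 2 * M) ⊆ Finset.Ico M (2 * M) :=
        fun p hp => Finset.mem_Ico.2 (Finset.mem_filter.1 hp).2
      have h2 := Finset.card_le_card h1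
      rw [Nat.card_Ico] at h2
      have h3 : 2 * M - M = M := by omega
      rw [h3] at h2
      exact_mod_cast h2
    have f3 : ∑ p ∈ Finset.range L,
        (if 2 * M ≤ p then E * ((p : ℝ) - M) ^ (-(1 + s)) else 0) ≤ E * (1 + 1 / s) := by
      rw [← Finset.sum_filter, ← Finset.mul_sum]
      refine mul_le_mul_of_nonneg_left ?_ hE0
      refine le_trans ?_ (sumw hs0 L)
      have h1 : ∑ p ∈ (Finset.range L).filter (fun p => 2 * M ≤ p),
          ((p : ℝ) - M) ^ (-(1 + s)) =
          ∑ i ∈ ((Finset.range L).filter (fun p => 2 * M ≤ p)).image (fun p => p - M - 1),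
            ((i : ℝ) + 1) ^ (-(1 + s)) := by
        rw [Finset.sum_image]
        · refine Finset.sum_congr rfl fun p hp => ?_
          have h2 := (Finset.mem_filter.1 hp).2
          congr 1
          rw [Nat.cast_sub (by omega), Nat.cast_sub (by omega)]
          push_cast
          ring
        · intro p hp p' hp' h
          have h2 := (Finset.mem_filter.1 hp).2
          have h3 := (Finset.mem_filter.1 hp').2
          have h4 : p - M - 1 = p' - M - 1 := h
          omega
      rw [h1]
      refine Finset.sum_le_sum_of_subset_of_nonneg ?_ fun i _ _ => by positivity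
      intro i hi
      obtain ⟨p, hp, rfl⟩ := Finset.mem_image.1 hi
      have h2 := Finset.mem_range.1 (Finset.mem_filter.1 hp).1
      exact Finset.mem_range.2 (by omega)
    have f4 : E * (1 + 1 / s) = M * ((α ^ 2 * P * η) ^ θ * (1 + 1 / s)) := by
      simp only [E]
      ring
    rw [f4] at f3
    linarith
  simp only [hmx]
  rw [← ENNReal.ofReal_sum_of_nonneg fun p _ => le_max_of_le_left (hA0 p)]
  exact ENNReal.ofReal_le_ofReal ((Finset.sum_le_sum fun p _ => hbd p).trans hsum)

end Pool.Agent.H61.CE
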