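import Pool.Agent.H98.CE.Targets

/-!
# DRA: excursions above before a block (MP_65efe8_pr)
-/

set_option autoImplicit false

open Pool.Agent.H95 Pool.Agent.H95.Cop
open Pool.Agent.H55.CG (pz VV Mo)

namespace Pool.Agent.H61.CE

open Pool.Agent.H98.CE Finset

theorem lk_nonneg {α κ : ℝ} (hκ : 0 ≤ κ) (d : ℕ) : 0 ≤ lk α κ d :=
  mul_nonneg hκ (Real.rpow_nonneg (Nat.cast_nonneg _) _)

theorem lk_anti {α κ : ℝ} (hα : 0 < α) (hκ : 0 ≤ κ) {d d' : ℕ} (h : 1 ≤ d) (h' : d ≤ d') :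
    lk α κ d' ≤ lk α κ d := by
  unfold lk
  refine mul_le_mul_of_nonneg_left ?_ hκ
  refine Real.rpow_le_rpow_of_nonpos ?_ ?_ (by linarith)
  · exact_mod_cast h
  · exact_mod_cast h'

theorem key (p : ℕ → ℕ → ℝ) (r : ℕ → ℝ) (hp : ∀ a b, 0 ≤ p a b) (hp0 : ∀ a b, b < a → p a b = 0)
    (hr : ∀ d, 0 ≤ r d) (hra : ∀ d d', 1 ≤ d → d ≤ d' → r d' ≤ r d)
    (hC : ∀ a b L, a < L → L ≤ b → ∑ u ∈ Ico a L, ∑ v ∈ Icc L b,
      (if u + 2 ≤ v then p a u * r (v + 1 - u) * p v b else 0) ≤ p a b)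
    {t n n' glo ghi a b : ℕ} (h1 : 2 ≤ glo) (h2 : ghi ≤ t) (h3 : n' ≤ n) (ha : a < t)
    (hb : t ≤ b) :
    ∑ s ∈ Ico glo ghi, ∑ v ∈ Ico t (t + n'), r (s + n + 1) * p a (t - s) * p v b ≤ p a b := by
  let T : ℕ → ℕ → ℝ := fun u v => if u + 2 ≤ v then p a u * r (v + 1 - u) * p v b else 0
  have hT : ∀ u v, 0 ≤ T u v := by
    intro u v
    simp only [T]
    split_ifs
    · exact mul_nonneg (mul_nonneg (hp _ _) (hr _)) (hp _ _)
    · exact le_rfl
  let Φ : ℕ → ℝ := fun u => ∑ v ∈ Icc t b, T u v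
  have hΦ : ∀ u, 0 ≤ Φ u := fun u => Finset.sum_nonneg fun v _ => hT u v
  have e1 : ∀ s ∈ Ico glo ghi, ∑ v ∈ Ico t (t + n'), r (s + n + 1) * p a (t - s) * p v b ≤
      if a ≤ t - s then Φ (t - s) else 0 := by
    intro s hs
    obtain ⟨hs1, hs2⟩ := Finset.mem_Ico.1 hs
    by_cases h : a ≤ t - s
    · rw [if_pos h]
      have e2 : ∀ v ∈ Ico t (t + n'), r (s + n + 1) * p a (t - s) * p v b ≤
          if v ≤ b then T (t - s) v else 0 := by
        intro v hv
        obtain ⟨hv1, hv2⟩ := Finset.mem_Ico.1 hv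
        by_cases hvb : v ≤ b
        · rw [if_pos hvb]
          have h4 : t - s + 2 ≤ v := by omega
          simp only [T]
          rw [if_pos h4, mul_comm (r (s + n + 1))]
          refine mul_le_mul_of_nonneg_right ?_ (hp _ _)
          refine mul_le_mul_of_nonneg_left ?_ (hp _ _)
          exact hra _ _ (by omega) (by omega)
        · rw [if_neg hvb, hp0 v b (by omega), mul_zero]
      refine (Finset.sum_le_sum e2).trans ?_
      rw [← Finset.sum_filter]
      refine Finset.sum_le_sum_of_subset_of_nonneg ?_ fun v _ _ => hT _ _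
      intro v hv
      obtain ⟨hv1, hv2⟩ := Finset.mem_filter.1 hv
      exact Finset.mem_Icc.2 ⟨(Finset.mem_Ico.1 hv1).1, hv2⟩
    · rw [if_neg h]
      refine le_of_eq (Finset.sum_eq_zero fun v _ => ?_)
      rw [hp0 a (t - s) (by omega)]
      ring
  refine (Finset.sum_le_sum e1).trans ?_
  refine le_trans ?_ (hC a b t ha hb)
  rw [← Finset.sum_filter]
  have e3 : ∑ s ∈ (Ico glo ghi).filter (fun s => a ≤ t - s), Φ (t - s) =
      ∑ u ∈ ((Ico glo ghi).filter (fun s => a ≤ t - s)).image (fun s => t - s), Φ u := by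
    rw [Finset.sum_image]
    intro s hs s' hs' h
    have h4 := Finset.mem_Ico.1 (Finset.mem_filter.1 hs).1
    have h5 := Finset.mem_Ico.1 (Finset.mem_filter.1 hs').1
    have h' : t - s = t - s' := h
    omega
  rw [e3]
  refine Finset.sum_le_sum_of_subset_of_nonneg ?_ fun u _ _ => hΦ u
  intro u hu
  obtain ⟨s, hs, rfl⟩ := Finset.mem_image.1 hu
  obtain ⟨hs1, hs2⟩ := Finset.mem_filter.1 hs
  obtain ⟨hs3, hs4⟩ := Finset.mem_Ico.1 hs1
  exact Finset.mem_Ico.2 ⟨hs2, by omega⟩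

theorem fw_nonneg {K : PMF ℕ} {ℓ : ℕ} {α κ : ℝ} (hκ : 0 ≤ κ) {n glo ghi : ℕ} {x : ℕ → ℝ}
    (hq : ∀ c, 0 ≤ qq K ℓ x c) : ∀ k t, 0 ≤ fw K ℓ α κ n glo ghi x k t := by
  intro k
  induction k with
  | zero =>
    intro t
    unfold fw
    exact zero_le_one
  | succ k ih =>
    intro t
    unfold fw
    refine add_nonneg zero_le_one (Finset.sum_nonneg fun s _ => ?_)
    exact mul_nonneg (lk_nonneg hκ _) (mul_nonneg (hq _) (ih _))

theorem pf_DRA (hPCB : T_PCB) (hPXS : T_PXS) (hCMP : T_CMP) : T_DRA := by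
  intro K ℓ α κ hℓ hα hκ hK n glo ghi hglo x
  have hp : ∀ a b, 0 ≤ pc K ℓ x a b := fun a b => (((hPCB K ℓ hℓ).2 a b).1 x 0).1
  have hp0 : ∀ a b, b < a → pc K ℓ x a b = 0 := fun a b => (((hPCB K ℓ hℓ).2 a b).1 x 0).2.2
  have hPX : ∀ a b c d, 0 ≤ PX K ℓ x a b c d := fun a b c d => ((hPXS K ℓ hℓ a b c d).1 x).1
  have hq : ∀ c, 0 ≤ qq K ℓ x c := fun c => le_min zero_le_one (hp c c)
  have hC := fun a b L => hCMP K ℓ α κ hℓ hα hκ hK x a b L
  intro k
  induction k with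
  | zero =>
    intro t n' g h _ _ _
    unfold fw
    rw [one_mul, Nat.zero_mul, Nat.sub_zero]
  | succ k ih =>
    intro t n' g h hk hn hg
    rw [Nat.succ_mul] at hk ⊢
    obtain ⟨lo, hlo⟩ : ∃ lo, lo = t - (k * ghi + ghi) := ⟨_, rfl⟩
    rw [← hlo]
    rcases Nat.eq_zero_or_pos n with hn0 | hn0
    · have hn' : n' = 0 := by omega
      have e0 : PX K ℓ x t (t + n') g h = 0 := by
        unfold PX
        rw [hn', Nat.add_zero, Finset.Ico_self, Finset.sum_empty]
      rw [e0, mul_zero]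
      exact hPX _ _ _ _
    have hqf : ∀ s ∈ Ico glo ghi, qq K ℓ x (t - s) * fw K ℓ α κ n glo ghi x k (t - s) ≤
        ∑ a' ∈ Ico lo t, pc K ℓ x a' (t - s) := by
      intro s hs
      obtain ⟨hs1, hs2⟩ := Finset.mem_Ico.1 hs
      have e1 := ih (t - s) 1 (t - s) (t - s + 1) (by omega) hn0 le_rfl
      have e2 : PX K ℓ x (t - s) (t - s + 1) (t - s) (t - s + 1) = pc K ℓ x (t - s) (t - s) := by
        unfold PX
        rw [Nat.Ico_succ_singleton, Finset.sum_singleton, Finset.sum_singleton]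
      have e3 : PX K ℓ x (t - s - k * ghi) (t - s + 1) (t - s) (t - s + 1) =
          ∑ a' ∈ Ico (t - s - k * ghi) (t - s + 1), pc K ℓ x a' (t - s) := by
        unfold PX
        refine Finset.sum_congr rfl fun a' _ => ?_
        rw [Nat.Ico_succ_singleton, Finset.sum_singleton]
      rw [e2, e3] at e1
      calc qq K ℓ x (t - s) * fw K ℓ α κ n glo ghi x k (t - s)
          ≤ pc K ℓ x (t - s) (t - s) * fw K ℓ α κ n glo ghi x k (t - s) :=
            mul_le_mul_of_nonneg_right (min_le_right _ _) (fw_nonneg hκ hq _ _)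
        _ = fw K ℓ α κ n glo ghi x k (t - s) * pc K ℓ x (t - s) (t - s) := mul_comm _ _
        _ ≤ _ := e1
        _ ≤ _ := by
            refine Finset.sum_le_sum_of_subset_of_nonneg ?_ fun a' _ _ => hp _ _
            exact Finset.Ico_subset_Ico (by omega) (by omega)
    have hmain : ∑ s ∈ Ico glo ghi, lk α κ (s + n + 1) *
        (qq K ℓ x (t - s) * fw K ℓ α κ n glo ghi x k (t - s)) * PX K ℓ x t (t + n') g h ≤
        PX K ℓ x lo t g h := by
      have e1 : ∀ s ∈ Ico glo ghi, lk α κ (s + n + 1) *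
          (qq K ℓ x (t - s) * fw K ℓ α κ n glo ghi x k (t - s)) * PX K ℓ x t (t + n') g h ≤
          ∑ a' ∈ Ico lo t, ∑ b' ∈ Ico g h, ∑ v ∈ Ico t (t + n'),
            lk α κ (s + n + 1) * pc K ℓ x a' (t - s) * pc K ℓ x v b' := by
        intro s hs
        have e2 : lk α κ (s + n + 1) *
            (qq K ℓ x (t - s) * fw K ℓ α κ n glo ghi x k (t - s)) * PX K ℓ x t (t + n') g h ≤
            lk α κ (s + n + 1) * (∑ a' ∈ Ico lo t, pc K ℓ x a' (t - s)) *
              PX K ℓ x t (t + n') g h :=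
          mul_le_mul_of_nonneg_right (mul_le_mul_of_nonneg_left (hqf s hs) (lk_nonneg hκ _))
            (hPX _ _ _ _)
        refine e2.trans (le_of_eq ?_)
        rw [Finset.mul_sum, Finset.sum_mul]
        refine Finset.sum_congr rfl fun a' _ => ?_
        unfold PX
        rw [Finset.sum_comm, Finset.mul_sum]
        refine Finset.sum_congr rfl fun b' _ => ?_
        rw [Finset.mul_sum]
      refine (Finset.sum_le_sum e1).trans ?_
      rw [Finset.sum_comm]
      unfold PX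
      refine Finset.sum_le_sum fun a' ha' => ?_
      rw [Finset.sum_comm]
      refine Finset.sum_le_sum fun b' hb' => ?_
      obtain ⟨ha1, ha2⟩ := Finset.mem_Ico.1 ha'
      obtain ⟨hb1, hb2⟩ := Finset.mem_Ico.1 hb'
      exact key (pc K ℓ x) (lk α κ) hp hp0 (lk_nonneg hκ) (fun d d' => lk_anti hα hκ)
        hC hglo (by omega) hn ha2 (hg.trans hb1)
    have hsplit : PX K ℓ x t (t + n') g h + PX K ℓ x lo t g h = PX K ℓ x lo (t + n') g h := by
      unfold PX
      rw [add_comm]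
      exact Finset.sum_Ico_consecutive _ (by omega) (by omega)
    have hfw : fw K ℓ α κ n glo ghi x (k + 1) t = 1 + ∑ s ∈ Ico glo ghi, lk α κ (s + n + 1) *
        (qq K ℓ x (t - s) * fw K ℓ α κ n glo ghi x k (t - s)) := by
      conv_lhs => unfold fw
    rw [hfw, add_mul, one_mul, Finset.sum_mul, ← hsplit]
    linarith

end Pool.Agent.H61.CE
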